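import Pool.Agent.Helper762_MX.Final
import Pool.Agent.Helper762_MX.Claw
import Pool.Agent.Helper762_QL.Lower

set_option autoImplicit false

/-!
# The stabilisation problem for a common generalisation of quasi-line and low degree graphs

For every `d ≥ 4` we consider classes of graphs of maximum degree at most `d` which contain all
line graphs of bipartite graphs of maximum degree at most `d` and which consist of graphs in which
* the vertices of a set `S` have degree at most `(3d+2)/4` and are otherwise arbitrary;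
* a vertex outside `S` has no neighbour in `S` and a neighbourhood which is a union of two cliques
  (or, if its degree is at most six, a neighbourhood without three pairwise non-adjacent vertices),
  or it has exactly one neighbour in `S` and its other neighbours form a clique.

On such a class the constants `μ(K_r)` are all equal to `c_f` as soon as `r ≥ d + 3`, and the
common value is `1 - 1/(⌊d/2⌋+1) - 1/(⌈d/2⌉+1)`.

The class of all graphs of maximum degree at most `d` in which every vertex of degree at least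
four has a neighbourhood of the second kind is covered (theorem `mixed_of_fine`).
-/

namespace Pool.Agent.Results.MP_490a5a_co.MixedGraphs

/-- maximum degree at most `d` -/
def MaxDeg (d : ℕ) {n : ℕ} (G : SimpleGraph (Fin n)) : Prop :=
  ∀ v, (G.neighborSet v).ncard ≤ d

/-- the neighbourhood of `t` is the union of two cliques, or `t` has degree at most six and is not
the centre of an induced claw -/
def Fine {n : ℕ} (G : SimpleGraph (Fin n)) (t : Fin n) : Prop :=
  (∃ A B : Set (Fin n), G.neighborSet t = A ∪ B ∧ G.IsClique A ∧ G.IsClique B) ∨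
    ((G.neighborSet t).ncard ≤ 6 ∧
      ∀ x y z, G.Adj t x → G.Adj t y → G.Adj t z → x ≠ y → x ≠ z → y ≠ z →
        G.Adj x y ∨ G.Adj x z ∨ G.Adj y z)

/-- the graphs considered: maximum degree at most `d`, and a set `S` of vertices of degree at most
`(3d+2)/4` such that every other vertex `t` either has no neighbour in `S` and is `Fine`, or has
exactly one neighbour `s` in `S`, the other neighbours of `t` forming a clique -/
def Mixed (d : ℕ) {n : ℕ} (G : SimpleGraph (Fin n)) : Prop :=
  MaxDeg d G ∧ ∃ S : Set (Fin n), (∀ v ∈ S, 4 * (G.neighborSet v).ncard ≤ 3 * d + 2) ∧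
    ∀ t, t ∉ S →
      ((∀ s ∈ S, ¬ G.Adj t s) ∧ Fine G t) ∨
      (∃ s ∈ S, G.Adj t s ∧ (∀ s' ∈ S, G.Adj t s' → s' = s) ∧
        G.IsClique (G.neighborSet t \ {s}))

/-- `G` is the line graph of a simple bipartite graph: its vertex `u` is the edge from the left
end `p u` to the right end `q u` -/
def BipLine {n : ℕ} (G : SimpleGraph (Fin n)) : Prop :=
  ∃ p q : Fin n → ℕ, (∀ u v, p u = p v → q u = q v → u = v) ∧
    ∀ u v, G.Adj u v ↔ u ≠ v ∧ (p u = p v ∨ q u = q v)

/-- the reals `μ` in the definition of `μ({K_r}, 𝒦)`, as in the frozen statement -/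
def delSet (𝒦 : ∀ n : ℕ, SimpleGraph (Fin n) → Prop) (r : ℕ) : Set ℝ :=
  {μ : ℝ | ∀ ε : ℝ, 0 < ε → ∃ N : ℕ, ∀ n : ℕ, N ≤ n → ∀ G : SimpleGraph (Fin n), 𝒦 n G →
      ∃ S : Finset (Fin n), (S.card : ℝ) ≤ (μ + ε) * (n : ℝ) ∧
        ¬ ∃ f : Fin r → Set (Fin n),
            (∀ i, Disjoint (f i) (S : Set (Fin n))) ∧
            (∀ i, (G.induce (f i)).Connected) ∧
            (∀ i j, i ≠ j → Disjoint (f i) (f j)) ∧
            (∀ i j, i ≠ j → ∃ u ∈ f i, ∃ v ∈ f j, G.Adj u v)}

/-- the reals `c` in the definition of `c_f(𝒦)`, as in the frozen statement -/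
def fragSet (𝒦 : ∀ n : ℕ, SimpleGraph (Fin n) → Prop) : Set ℝ :=
  {c : ℝ | ∀ ε : ℝ, 0 < ε → ∃ C : ℕ, ∀ n : ℕ, ∀ G : SimpleGraph (Fin n), 𝒦 n G →
      ∃ S : Finset (Fin n), (S.card : ℝ) ≤ (c + ε) * (n : ℝ) ∧
        ∀ T : Set (Fin n), Disjoint T (S : Set (Fin n)) →
          (G.induce T).Connected → T.ncard ≤ C}

/-- a `Fine` vertex is not the centre of an induced claw -/
theorem Fine.noClaw {n : ℕ} {G : SimpleGraph (Fin n)} {t : Fin n} (h : Fine G t)
    (x y z : Fin n) (hx : G.Adj t x) (hy : G.Adj t y) (hz : G.Adj t z) (hxy : x ≠ y)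
    (hxz : x ≠ z) (hyz : y ≠ z) : G.Adj x y ∨ G.Adj x z ∨ G.Adj y z := by
  rcases h with ⟨A, B, hAB, hA, hB⟩ | ⟨_, h⟩
  · have hmem : ∀ w, G.Adj t w → w ∈ A ∨ w ∈ B := by
      intro w hw
      have : w ∈ G.neighborSet t := hw
      rw [hAB] at this
      exact this
    rcases hmem x hx with ha | ha <;> rcases hmem y hy with hb | hb <;>
      rcases hmem z hz with hc | hc
    · exact Or.inl (hA ha hb hxy)
    · exact Or.inl (hA ha hb hxy)
    · exact Or.inr (Or.inl (hA ha hc hxz))
    · exact Or.inr (Or.inr (hB hb hc hyz))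
    · exact Or.inr (Or.inr (hA hb hc hyz))
    · exact Or.inr (Or.inl (hB ha hc hxz))
    · exact Or.inl (hB ha hb hxy)
    · exact Or.inl (hB ha hb hxy)
  · exact h x y z hx hy hz hxy hxz hyz

/-- If every vertex of degree at least four is `Fine`, then the graph is `Mixed`: take for `S` the
vertices of degree at most three in no triangle. So `Mixed d` contains all graphs of maximum
degree at most three. -/
theorem mixed_of_fine {d n : ℕ} (hd : 4 ≤ d) {G : SimpleGraph (Fin n)} (hdeg : MaxDeg d G)
    (h : ∀ v, 4 ≤ (G.neighborSet v).ncard → Fine G v) : Mixed d G := by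
  classical
  refine ⟨hdeg, {v | (G.neighborSet v).ncard ≤ 3 ∧ ∀ x y, G.Adj v x → G.Adj v y → ¬ G.Adj x y},
    ?_, ?_⟩
  · rintro v ⟨hv, _⟩
    omega
  · intro t ht
    -- `t` is not the centre of a claw
    have hfine : Fine G t := by
      by_cases h4 : 4 ≤ (G.neighborSet t).ncard
      · exact h t h4
      · push Not at h4
        obtain ⟨x, y, hx, hy, hxy⟩ : ∃ x y, G.Adj t x ∧ G.Adj t y ∧ G.Adj x y := by
          by_contra hcon
          push Not at hcon
          exact ht ⟨by omega, hcon⟩
        refine Or.inr ⟨by omega, ?_⟩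
        intro a b c ha hb hc hab hac hbc
        have hsub : ({a, b, c} : Finset (Fin n)) = (G.neighborSet t).toFinset := by
          apply Finset.eq_of_subset_of_card_le
          · intro w hw
            simp only [Finset.mem_insert, Finset.mem_singleton] at hw
            rw [Set.mem_toFinset]
            rcases hw with rfl | rfl | rfl <;> assumption
          · rw [← Set.ncard_eq_toFinset_card', Finset.card_insert_of_notMem,
              Finset.card_pair hbc]
            · omega
            · simp only [Finset.mem_insert, Finset.mem_singleton, not_or]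
              exact ⟨hab, hac⟩
        have hx' : x ∈ ({a, b, c} : Finset (Fin n)) := by
          rw [hsub, Set.mem_toFinset]; exact hx
        have hy' : y ∈ ({a, b, c} : Finset (Fin n)) := by
          rw [hsub, Set.mem_toFinset]; exact hy
        simp only [Finset.mem_insert, Finset.mem_singleton] at hx' hy'
        rcases hx' with rfl | rfl | rfl <;> rcases hy' with rfl | rfl | rfl
        · exact absurd rfl hxy.ne
        · exact Or.inl hxy
        · exact Or.inr (Or.inl hxy)
        · exact Or.inl hxy.symm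
        · exact absurd rfl hxy.ne
        · exact Or.inr (Or.inr hxy)
        · exact Or.inr (Or.inl hxy.symm)
        · exact Or.inr (Or.inr hxy.symm)
        · exact absurd rfl hxy.ne
    by_cases hS : ∀ s ∈ {v | (G.neighborSet v).ncard ≤ 3 ∧
        ∀ x y, G.Adj v x → G.Adj v y → ¬ G.Adj x y}, ¬ G.Adj t s
    · exact Or.inl ⟨hS, hfine⟩
    · right
      push Not at hS
      obtain ⟨s, hs, hts⟩ := hS
      have hclq : ∀ x y, G.Adj t x → G.Adj t y → x ≠ s → y ≠ s → x ≠ y → G.Adj x y := by
        intro x y hx hy hxs hys hxy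
        rcases hfine.noClaw s x y hts hx hy hxs.symm hys.symm hxy with h1 | h1 | h1
        · exact absurd hx (hs.2 t x hts.symm h1)
        · exact absurd hy (hs.2 t y hts.symm h1)
        · exact h1
      refine ⟨s, hs, hts, ?_, ?_⟩
      · intro s' hs' hts'
        by_contra hne
        -- a third neighbour of `t`
        obtain ⟨x, hx, hxs, hxs'⟩ : ∃ x, G.Adj t x ∧ x ≠ s ∧ x ≠ s' := by
          by_cases h4 : 4 ≤ (G.neighborSet t).ncard
          · by_contra hcon
            push Not at hcon
            have hsub : G.neighborSet t ⊆ ({s, s'} : Set (Fin n)) := by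
              intro w hw
              by_cases hws : w = s
              · exact Or.inl hws
              · exact Or.inr (hcon w hw hws)
            have h1 := Set.ncard_le_ncard hsub (Set.toFinite _)
            have h2 : ({s, s'} : Set (Fin n)).ncard ≤ 2 := Set.ncard_insert_le _ _ |>.trans (by
              rw [Set.ncard_singleton])
            omega
          · push Not at h4
            obtain ⟨x, y, hx, hy, hxy⟩ : ∃ x y, G.Adj t x ∧ G.Adj t y ∧ G.Adj x y := by
              by_contra hcon
              push Not at hcon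
              exact ht ⟨by omega, hcon⟩
            refine ⟨x, hx, ?_, ?_⟩
            · rintro rfl
              exact hs.2 t y hts.symm hxy hy
            · rintro rfl
              exact hs'.2 t y hts'.symm hxy hy
        have h1 : G.Adj s' x := hclq s' x hts' hx hne hxs (Ne.symm hxs')
        exact hs'.2 t x hts'.symm h1 hx
      · intro x hx y hy hxy
        exact hclq x y hx.1 hy.1 (fun h => hx.2 h) (fun h => hy.2 h) hxy

open Pool.Agent.Helper762_QL Pool.Agent.Helper762_MX in
open Classical in
theorem mixed {d n : ℕ} {G : SimpleGraph (Fin n)} (h : Mixed d G) :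
    ∃ S : Finset (Fin n), Pool.Agent.Helper762_MX.Mixed G d ((3 * d + 2) / 4) S := by
  obtain ⟨hdeg, S, hS, hout⟩ := h
  have hdeg' : ∀ v, ∀ N : Finset (Fin n), (∀ w ∈ N, G.Adj v w) →
      N.card ≤ (G.neighborSet v).ncard := by
    intro v N hN
    rw [← Set.ncard_coe_finset]
    refine Set.ncard_le_ncard ?_ (Set.toFinite _)
    intro w hw
    exact hN w (by exact_mod_cast hw)
  refine ⟨S.toFinset, fun v N hN => (hdeg' v N hN).trans (hdeg v), ?_, ?_⟩
  · intro v hv N hN
    rw [Set.mem_toFinset] at hv
    have h1 := hS v hv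
    have h2 := hdeg' v N hN
    omega
  · intro t ht
    rw [Set.mem_toFinset] at ht
    rcases hout t ht with ⟨h1, h2⟩ | ⟨s, hs, hts, h1, h2⟩
    · right
      refine ⟨fun s hs => h1 s (Set.mem_toFinset.1 hs), fun x y z => h2.noClaw x y z, ?_⟩
      have hcardN : (Finset.univ.filter (fun w => G.Adj t w)).card ≤ (G.neighborSet t).ncard :=
        hdeg' t _ fun w hw => (Finset.mem_filter.1 hw).2
      rcases h2 with ⟨A, B, hAB, hA, hB⟩ | ⟨h6, h2⟩
      · refine ⟨phi2 A, ?_, phi2_bound A _ (hcardN.trans (hdeg t))⟩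
        refine phi2_local G t A B ?_ ?_ ?_
        · intro w hw
          have : w ∈ G.neighborSet t := hw
          rw [hAB] at this
          exact this
        · intro x hx y hy hxy
          exact hA hx hy hxy
        · intro x hx y hy hxy
          exact hB hx hy hxy
      · refine ⟨phi3 G, phi3_local G t, ?_⟩
        refine (alpha_anti (hcardN.trans (hdeg t))).trans (phi3_bound G ?_ (hcardN.trans h6))
        intro x hx y hy z hz
        exact h2 x y z (Finset.mem_filter.1 hx).2 (Finset.mem_filter.1 hy).2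
          (Finset.mem_filter.1 hz).2
    · left
      refine ⟨s, Set.mem_toFinset.2 hs, hts, fun s' hs' => h1 s' (Set.mem_toFinset.1 hs'), ?_⟩
      intro x y hx hy hxs hys hxy
      exact h2 ⟨hx, hxs⟩ ⟨hy, hys⟩ hxy

open Pool.Agent.Helper762_QL in
theorem sp_class {d : ℕ} {𝒦 : ∀ n : ℕ, SimpleGraph (Fin n) → Prop}
    (hlow : ∀ (n : ℕ) (G : SimpleGraph (Fin n)), MaxDeg d G → BipLine G → 𝒦 n G)
    {g n : ℕ} {K : ℝ} {G : SimpleGraph (Fin n)} (h : SpLine d g K n G) : 𝒦 n G := by
  classical
  obtain ⟨a, b, p, q, hinj, hline, -, -⟩ := h.ex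
  refine hlow n G ?_ ⟨fun u => (p u : ℕ), fun u => (q u : ℕ), ?_, ?_⟩
  · intro v
    rw [Set.ncard_eq_toFinset_card' (G.neighborSet v)]
    exact h.deg v _ fun w hw => by simpa using hw
  · intro u v h1 h2
    exact hinj u v (Fin.ext h1) (Fin.ext h2)
  · intro u v
    rw [hline.adj u v, Fin.ext_iff, Fin.ext_iff]

open Pool.Agent.Helper762_QL Pool.Agent.Helper762_MX in
/-- **Exact stabilisation for mixed graphs.** -/
theorem result (d : ℕ) (hd : 4 ≤ d) (𝒦 : ∀ n : ℕ, SimpleGraph (Fin n) → Prop)
    (hup : ∀ (n : ℕ) (G : SimpleGraph (Fin n)), 𝒦 n G → Mixed d G)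
    (hlow : ∀ (n : ℕ) (G : SimpleGraph (Fin n)), MaxDeg d G → BipLine G → 𝒦 n G)
    (r : ℕ) (hr : d + 3 ≤ r) :
    sInf (delSet 𝒦 r) = sInf (fragSet 𝒦) ∧
    sInf (fragSet 𝒦) =
      1 - (1 / (((d / 2 : ℕ) : ℝ) + 1) + 1 / ((((d + 1) / 2 : ℕ) : ℝ) + 1)) := by
  classical
  have hcompl : ∀ {n : ℕ} (Y : Finset (Fin n)), ((Yᶜ).card : ℝ) = n - Y.card := by
    intro n Y
    rw [Finset.card_compl, Fintype.card_fin, Nat.cast_sub]
    have := Finset.card_le_univ Y
    simpa using this
  have hk : 4 * ((3 * d + 2) / 4) ≤ 3 * d + 2 := by omega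
  have h1 : IsLeast (fragSet 𝒦) (1 - alpha d) := by
    constructor
    · intro ε hε
      obtain ⟨C, hC⟩ := mixed_frag d _ hd hk ε hε
      refine ⟨C, fun n G hG => ?_⟩
      obtain ⟨S, hS⟩ := mixed (hup n G hG)
      obtain ⟨Y, hY, hT⟩ := hC (Fin n) inferInstance G S hS
      rw [Fintype.card_fin] at hY
      refine ⟨Yᶜ, ?_, ?_⟩
      · rw [hcompl]
        linarith
      · intro T hTY hconn
        refine hT T ?_ hconn
        intro x hx
        by_contra hxY
        exact Set.disjoint_left.1 hTY hx (by rw [Finset.coe_compl]; exact hxY)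
    · intro c hc
      refine lower_frag d c fun ε hε => ?_
      obtain ⟨C, hC⟩ := hc ε hε
      exact ⟨C, fun g n K G hG => hC n G (sp_class hlow hG)⟩
  have h2 : IsLeast (delSet 𝒦 r) (1 - alpha d) := by
    constructor
    · intro ε hε
      refine ⟨0, fun n _ G hG => ?_⟩
      obtain ⟨S, hS⟩ := mixed (hup n G hG)
      obtain ⟨Y, hM, hY⟩ := hS.upper_model hd hk hr
      rw [Fintype.card_fin] at hY
      refine ⟨Yᶜ, ?_, ?_⟩
      · rw [hcompl]
        have : (0 : ℝ) ≤ ε * n := mul_nonneg hε.le (Nat.cast_nonneg _)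
        linarith
      · rintro ⟨f, hf1, hf2, hf3, hf4⟩
        refine hM ⟨f, ?_, hf2, hf3, hf4⟩
        intro i x hx
        by_contra hxY
        exact Set.disjoint_left.1 (hf1 i) hx (by rw [Finset.coe_compl]; exact hxY)
    · intro c hc
      refine lower_model d r c fun ε hε => ?_
      obtain ⟨N, hN⟩ := hc ε hε
      exact ⟨N, fun g n K G hn hG => hN n hn G (sp_class hlow hG)⟩
  exact ⟨by rw [h1.csInf_eq, h2.csInf_eq], h1.csInf_eq⟩

end Pool.Agent.Results.MP_490a5a_co.MixedGraphs
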